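import Pool.Agent.H31.CF.U3

/-!
# Weights with a coprimality condition under Hecke operators
-/

set_option autoImplicit false
set_option linter.unusedVariables false

open scoped Real Matrix MatrixGroups

namespace Pool.Agent.H68.CFU

open Pool.Agent.H31.CN Pool.Agent.H91.CF Pool.Agent.H31.CF

/-- one step -/
theorem wcc_step {f p : ℕ} (hp : p.Prime) (hpf : Nat.Coprime p f) (ω ω' : QF → ℕ → ℝ)
    (h : ∀ (R : QF) (e : ℕ), 0 < R.1 → 1 ≤ e →
      ω' R e = if Nat.Coprime (e * R.1.toNat) f then ω R e else 0)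
    (Q : QF) (e : ℕ) (hQ : 0 < Q.1) (he : 1 ≤ e) :
    Wp p ω' Q e = if Nat.Coprime (e * Q.1.toNat) f then Wp p ω Q e else 0 := by
  have hp0 : (0 : ℤ) < p := by exact_mod_cast hp.pos
  have h1 : (if (p : ℤ) ∣ Q.1 then ω' (Q.1 / p, Q.2.1, p * Q.2.2) e else 0) =
      if Nat.Coprime (e * Q.1.toNat) f then
        (if (p : ℤ) ∣ Q.1 then ω (Q.1 / p, Q.2.1, p * Q.2.2) e else 0) else 0 := by
    by_cases hd : (p : ℤ) ∣ Q.1
    · rw [if_pos hd, if_pos hd]
      obtain ⟨x, hx⟩ := hd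
      have hxp : 0 < x := by
        rw [hx] at hQ
        exact pos_of_mul_pos_right hQ hp0.le
      have e1 : Q.1 / p = x := by rw [hx]; exact Int.mul_ediv_cancel_left _ hp0.ne'
      rw [h _ e (by rw [e1]; exact hxp) he]
      have e2 : Q.1.toNat = p * x.toNat := by
        have h3 : (Q.1.toNat : ℤ) = ((p * x.toNat : ℕ) : ℤ) := by
          push_cast
          rw [Int.toNat_of_nonneg hQ.le, Int.toNat_of_nonneg hxp.le, hx]
        exact_mod_cast h3
      have e3 : Nat.Coprime (e * (Q.1 / p).toNat) f ↔ Nat.Coprime (e * Q.1.toNat) f := by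
        rw [e1, e2, Nat.coprime_mul_iff_left, Nat.coprime_mul_iff_left, Nat.coprime_mul_iff_left]
        constructor
        · rintro ⟨a, b⟩
          exact ⟨a, hpf, b⟩
        · rintro ⟨a, -, b⟩
          exact ⟨a, b⟩
      exact if_congr e3 rfl rfl
    · rw [if_neg hd, if_neg hd]
      split_ifs <;> rfl
  have h2 : (if p ∣ e then ∑ j ∈ (Finset.range p).filter
      (fun j : ℕ => (p : ℤ) ∣ Q.1 * (j : ℤ) ^ 2 + Q.2.1 * (j : ℤ) + Q.2.2),
      ω' (p * Q.1, Q.2.1 + 2 * Q.1 * j, (Q.1 * (j : ℤ) ^ 2 + Q.2.1 * (j : ℤ) + Q.2.2) / p) (e / p)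
      else 0) = if Nat.Coprime (e * Q.1.toNat) f then
        (if p ∣ e then ∑ j ∈ (Finset.range p).filter
      (fun j : ℕ => (p : ℤ) ∣ Q.1 * (j : ℤ) ^ 2 + Q.2.1 * (j : ℤ) + Q.2.2),
      ω (p * Q.1, Q.2.1 + 2 * Q.1 * j, (Q.1 * (j : ℤ) ^ 2 + Q.2.1 * (j : ℤ) + Q.2.2) / p) (e / p)
      else 0) else 0 := by
    by_cases hd : p ∣ e
    · rw [if_pos hd, if_pos hd]
      obtain ⟨x, hx⟩ := hd
      have hx1 : 1 ≤ x := by
        rcases Nat.eq_zero_or_pos x with h3 | h3
        · rw [h3, mul_zero] at hx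
          omega
        · exact h3
      have e1 : e / p = x := by rw [hx]; exact Nat.mul_div_cancel_left _ hp.pos
      have e2 : ((p : ℤ) * Q.1).toNat = p * Q.1.toNat := by
        have h3 : ((((p : ℤ) * Q.1).toNat : ℕ) : ℤ) = ((p * Q.1.toNat : ℕ) : ℤ) := by
          push_cast
          rw [Int.toNat_of_nonneg hQ.le, Int.toNat_of_nonneg (mul_pos hp0 hQ).le]
        exact_mod_cast h3
      have e3 : e / p * ((p : ℤ) * Q.1).toNat = e * Q.1.toNat := by
        rw [e1, e2, hx]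
        ring
      have e4 : ∀ (b c : ℤ), ω' ((p : ℤ) * Q.1, b, c) (e / p) =
          if Nat.Coprime (e * Q.1.toNat) f then ω ((p : ℤ) * Q.1, b, c) (e / p) else 0 := by
        intro b c
        rw [h _ (e / p) (mul_pos hp0 hQ) (by rw [e1]; exact hx1)]
        show (if Nat.Coprime (e / p * ((p : ℤ) * Q.1).toNat) f then _ else _) = _
        rw [e3]
      by_cases hc : Nat.Coprime (e * Q.1.toNat) f
      · rw [if_pos hc]
        refine Finset.sum_congr rfl fun j _ => ?_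
        rw [e4, if_pos hc]
      · rw [if_neg hc]
        refine Finset.sum_eq_zero fun j _ => ?_
        rw [e4, if_neg hc]
    · rw [if_neg hd, if_neg hd]
      split_ifs <;> rfl
  unfold Wp
  rw [h1, h2]
  split_ifs <;> simp

theorem wcc_aux (f : ℕ) (l : List ℕ) : ∀ (ω ω' : QF → ℕ → ℝ),
    (∀ p ∈ l, p.Prime ∧ Nat.Coprime p f) →
    (∀ (R : QF) (e : ℕ), 0 < R.1 → 1 ≤ e →
      ω' R e = if Nat.Coprime (e * R.1.toNat) f then ω R e else 0) →
    ∀ (Q : QF) (e : ℕ), 0 < Q.1 → 1 ≤ e → l.foldl (fun ω p => Wp p ω) ω' Q e =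
      if Nat.Coprime (e * Q.1.toNat) f then l.foldl (fun ω p => Wp p ω) ω Q e else 0 := by
  induction l with
  | nil => intro ω ω' _ h Q e hQ he; exact h Q e hQ he
  | cons p l ih =>
    intro ω ω' hl h Q e hQ he
    rw [List.foldl_cons, List.foldl_cons]
    exact ih (Wp p ω) (Wp p ω') (fun q hq => hl q (List.mem_cons_of_mem _ hq))
      (fun R e hR he => wcc_step (hl p List.mem_cons_self).1
        (hl p List.mem_cons_self).2 ω ω' h R e hR he) Q e hQ he

theorem pf_WCC : T_WCC := by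
  intro f ω l hf hl Q e hQ he
  exact wcc_aux f l ω _ hl (fun R e _ _ => rfl) Q e hQ he

end Pool.Agent.H68.CFU
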