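import Pool.Agent.H65.CF.T7

/-!
# Every number is a product of a smooth number, a square and a squarefree number
-/

set_option autoImplicit false
set_option linter.unusedVariables false

namespace Pool.Agent.H68.CF

open Pool.Agent.H65.CF

theorem sqf_unique {s r s' r' : ℕ} (hs : s ≠ 0) (hr : r ≠ 0) (hs' : s' ≠ 0) (hr' : r' ≠ 0)
    (h : s ^ 2 * r = s' ^ 2 * r') (hq : Squarefree r) (hq' : Squarefree r') : s = s' ∧ r = r' := by
  have h1 : ∀ p, 2 * s.factorization p + r.factorization p =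
      2 * s'.factorization p + r'.factorization p := by
    intro p
    have h2 : (s ^ 2 * r).factorization p = (s' ^ 2 * r').factorization p := by rw [h]
    rw [Nat.factorization_mul (pow_ne_zero 2 hs) hr, Nat.factorization_mul (pow_ne_zero 2 hs') hr',
      Nat.factorization_pow, Nat.factorization_pow] at h2
    simpa using h2
  have h3 : ∀ p, r.factorization p ≤ 1 := fun p => hq.natFactorization_le_one p
  have h4 : ∀ p, r'.factorization p ≤ 1 := fun p => hq'.natFactorization_le_one p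
  constructor
  · apply Nat.eq_of_factorization_eq hs hs'
    intro p
    have := h1 p
    have := h3 p
    have := h4 p
    omega
  · apply Nat.eq_of_factorization_eq hr hr'
    intro p
    have := h1 p
    have := h3 p
    have := h4 p
    omega

theorem dec_unique {R a b a' b' : ℕ} (ha0 : a ≠ 0) (hb0 : b ≠ 0) (ha0' : a' ≠ 0) (hb0' : b' ≠ 0)
    (ha : ∀ p ∈ a.primeFactors, p ≤ R) (ha' : ∀ p ∈ a'.primeFactors, p ≤ R)
    (hb : ∀ p ∈ b.primeFactors, R < p) (hb' : ∀ p ∈ b'.primeFactors, R < p)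
    (h : a * b = a' * b') : a = a' := by
  have key : ∀ {x y : ℕ}, x ≠ 0 → y ≠ 0 → (∀ p ∈ x.primeFactors, p ≤ R) →
      (∀ p ∈ y.primeFactors, R < p) → Nat.Coprime x y := by
    intro x y hx0 hy0 hx hy
    rw [← Nat.disjoint_primeFactors hx0 hy0, Finset.disjoint_left]
    intro p hp hp'
    have := hx p hp
    have := hy p hp'
    omega
  apply Nat.dvd_antisymm
  · exact (key ha0 hb0' ha hb').dvd_of_dvd_mul_right (h ▸ Dvd.intro _ rfl)
  · exact (key ha0' hb0 ha' hb).dvd_of_dvd_mul_right (h ▸ Dvd.intro _ rfl)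

theorem dec_exists (R : ℕ) {m : ℕ} (hm : m ≠ 0) : ∃ a b : ℕ, a * b = m ∧
    (∀ p ∈ a.primeFactors, p ≤ R) ∧ (∀ p ∈ b.primeFactors, R < p) := by
  refine ⟨∏ p ∈ m.primeFactors.filter (· ≤ R), p ^ m.factorization p,
    ∏ p ∈ m.primeFactors.filter (fun p => ¬ p ≤ R), p ^ m.factorization p, ?_, ?_, ?_⟩
  · rw [Finset.prod_filter_mul_prod_filter_not]
    exact Nat.prod_factorization_pow_eq_self hm
  · intro q hq
    have hq1 := Nat.prime_of_mem_primeFactors hq
    have hq2 := Nat.dvd_of_mem_primeFactors hq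
    obtain ⟨p, hp, h1⟩ := (hq1.prime.dvd_finsetProd_iff _).1 hq2
    have h2 := hq1.dvd_of_dvd_pow h1
    rw [Finset.mem_filter] at hp
    rw [(Nat.prime_dvd_prime_iff_eq hq1 (Nat.prime_of_mem_primeFactors hp.1)).1 h2]
    exact hp.2
  · intro q hq
    have hq1 := Nat.prime_of_mem_primeFactors hq
    have hq2 := Nat.dvd_of_mem_primeFactors hq
    obtain ⟨p, hp, h1⟩ := (hq1.prime.dvd_finsetProd_iff _).1 hq2
    have h2 := hq1.dvd_of_dvd_pow h1
    rw [Finset.mem_filter] at hp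
    rw [(Nat.prime_dvd_prime_iff_eq hq1 (Nat.prime_of_mem_primeFactors hp.1)).1 h2]
    exact not_le.1 hp.2

theorem mem_smo {R Z a : ℕ} : a ∈ smo R Z ↔ (1 ≤ a ∧ a ≤ Z) ∧ ∀ p ∈ a.primeFactors, p ≤ R := by
  unfold smo
  rw [Finset.mem_filter, Finset.mem_Icc]

theorem mem_rou {R Z a : ℕ} : a ∈ rou R Z ↔ (1 ≤ a ∧ a ≤ Z) ∧ ∀ p ∈ a.primeFactors, R < p := by
  unfold rou
  rw [Finset.mem_filter, Finset.mem_Icc]

theorem rough_sq_mul {R s r : ℕ} (hs0 : s ≠ 0) (hr0 : r ≠ 0) (hs : ∀ p ∈ s.primeFactors, R < p)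
    (hr : ∀ p ∈ r.primeFactors, R < p) : ∀ p ∈ (s ^ 2 * r).primeFactors, R < p := by
  intro p hp
  rw [Nat.primeFactors_mul (pow_ne_zero 2 hs0) hr0, Nat.primeFactors_pow _ two_ne_zero,
    Finset.mem_union] at hp
  exact hp.elim (hs p) (hr p)

theorem pf_DEC : T_DEC := by
  intro R Z f
  have h1 : ∑ a ∈ smo R Z, ∑ s ∈ rou R Z, ∑ r ∈ (rou R Z).filter Squarefree,
      (if a * s ^ 2 * r ≤ Z then f (a * s ^ 2 * r) else 0) =
      ∑ x ∈ ((smo R Z) ×ˢ ((rou R Z) ×ˢ ((rou R Z).filter Squarefree))).filter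
        (fun x => x.1 * x.2.1 ^ 2 * x.2.2 ≤ Z), f (x.1 * x.2.1 ^ 2 * x.2.2) := by
    rw [Finset.sum_filter, Finset.sum_product]
    refine Finset.sum_congr rfl fun a _ => ?_
    rw [Finset.sum_product]
  rw [h1]
  symm
  refine Finset.sum_bij (fun x _ => x.1 * x.2.1 ^ 2 * x.2.2) ?_ ?_ ?_ (fun _ _ => rfl)
  · rintro ⟨a, s, r⟩ hx
    simp only [Finset.mem_filter, Finset.mem_product, mem_smo, mem_rou] at hx
    obtain ⟨⟨ha, hs, hr, hq⟩, hZ⟩ := hx
    rw [Finset.mem_Icc]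
    refine ⟨?_, hZ⟩
    have : 0 < a * s ^ 2 * r :=
      Nat.mul_pos (Nat.mul_pos (by omega) (pow_pos (by omega) 2)) (by omega)
    exact this
  · rintro ⟨a, s, r⟩ hx ⟨a', s', r'⟩ hx' h
    simp only [Finset.mem_filter, Finset.mem_product, mem_smo, mem_rou] at hx hx'
    obtain ⟨⟨ha, hs, hr, hq⟩, hZ⟩ := hx
    obtain ⟨⟨ha', hs', hr', hq'⟩, hZ'⟩ := hx'
    have h2 : a * (s ^ 2 * r) = a' * (s' ^ 2 * r') := by
      rw [← mul_assoc, ← mul_assoc]
      exact h
    have hs0 : s ≠ 0 := by omega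
    have hr0 : r ≠ 0 := by omega
    have hs0' : s' ≠ 0 := by omega
    have hr0' : r' ≠ 0 := by omega
    have h3 : a = a' := dec_unique (by omega) (mul_ne_zero (pow_ne_zero 2 hs0) hr0) (by omega)
      (mul_ne_zero (pow_ne_zero 2 hs0') hr0') ha.2 ha'.2 (rough_sq_mul hs0 hr0 hs.2 hr.2)
      (rough_sq_mul hs0' hr0' hs'.2 hr'.2) h2
    subst h3
    have h4 := Nat.eq_of_mul_eq_mul_left (by omega) h2
    obtain ⟨h5, h6⟩ := sqf_unique hs0 hr0 hs0' hr0' h4 hq hq'
    rw [h5, h6]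
  · intro m hm
    rw [Finset.mem_Icc] at hm
    obtain ⟨a, b, hab, ha, hb⟩ := dec_exists R (by omega : m ≠ 0)
    obtain ⟨r, s, hsr, hq⟩ := Nat.sq_mul_squarefree b
    have hm0 : m ≠ 0 := by omega
    have ha0 : a ≠ 0 := by rintro rfl; simp at hab; omega
    have hb0 : b ≠ 0 := by rintro rfl; simp at hab; omega
    have hs0 : s ≠ 0 := by rintro rfl; simp at hsr; omega
    have hr0 : r ≠ 0 := by rintro rfl; simp at hsr; omega
    have hbm : b ≤ m := Nat.le_of_dvd (by omega) (hab ▸ Dvd.intro_left _ rfl)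
    have ham : a ≤ m := Nat.le_of_dvd (by omega) (hab ▸ Dvd.intro _ rfl)
    have hsb : s ∣ b := hsr ▸ Dvd.dvd.mul_right (dvd_pow_self s two_ne_zero) r
    have hrb : r ∣ b := hsr ▸ Dvd.intro_left _ rfl
    have hsb' := Nat.le_of_dvd (by omega) hsb
    have hrb' := Nat.le_of_dvd (by omega) hrb
    have hval : a * s ^ 2 * r = m := by rw [mul_assoc, hsr, hab]
    refine ⟨(a, s, r), ?_, hval⟩
    simp only [Finset.mem_filter, Finset.mem_product, mem_smo, mem_rou]
    refine ⟨⟨⟨⟨by omega, by omega⟩, ha⟩, ⟨⟨by omega, by omega⟩, fun p hp => hb p ?_⟩,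
      ⟨⟨by omega, by omega⟩, fun p hp => hb p ?_⟩, hq⟩, by rw [hval]; exact hm.2⟩
    · exact Nat.primeFactors_mono hsb hb0 hp
    · exact Nat.primeFactors_mono hrb hb0 hp

end Pool.Agent.H68.CF
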