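import Pool.Agent.H65.CF.T8

/-!
# The representations of numbers by the forms of the ideal classes
-/

set_option autoImplicit false
set_option linter.unusedVariables false

open MeasureTheory Set Filter NumberField
open scoped Real nonZeroDivisors

namespace Pool.Agent.H68.CF

open Pool.Agent.H31.CN Pool.Agent.H65.CF Pool.Agent.H65.AD

theorem pf_RPN (hRPJ : T_RPJ) (hIDC : T_IDC) (hCHM : T_CHM) : T_RPN := by
  intro D K _ _ hD hF h2 hd
  obtain ⟨Q, hQ, hQ'⟩ := hRPJ D K hD hF h2 hd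
  refine ⟨Q, hQ, fun w hw hs => ?_⟩
  have hid : ∀ n : ℕ, (Nat.card {J : Ideal (𝓞 K) // Ideal.absNorm J = n + 1} : ℝ) =
      aD (n + 1) D := fun n => hIDC D K hD hF h2 hd (n + 1) (by omega)
  have hs1 : Summable (fun n : ℕ => (((n + 1 : ℕ) : ℝ) + 1) * w (n + 1)) :=
    (summable_nat_add_iff 1).2 hs
  have hs2 : Summable (fun n : ℕ =>
      (Nat.card {J : Ideal (𝓞 K) // Ideal.absNorm J = n + 1} : ℝ) * w (n + 1)) := by
    refine Summable.of_nonneg_of_le (fun n => mul_nonneg (Nat.cast_nonneg _) (hw _))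
      (fun n => ?_) hs1
    refine mul_le_mul_of_nonneg_right ?_ (hw _)
    rw [hid]
    refine (le_abs_self _).trans ((hCHM.2.2.2.2 (n + 1) D).trans ?_)
    have h1 : (n + 1).divisors.card ≤ n + 1 := Nat.card_divisors_le_self (n + 1)
    have h3 : ((n + 1).divisors.card : ℝ) ≤ ((n + 1 : ℕ) : ℝ) := by exact_mod_cast h1
    linarith
  obtain ⟨h3, h4⟩ := hQ' w hw hs2
  refine ⟨h3, ?_⟩
  rw [h4]
  congr 1
  refine tsum_congr fun n => ?_
  rw [hid]

end Pool.Agent.H68.CF
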